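import Pool.Agent.Helper15_PGF.Step

/-! Squad PGF, module BUBC: the bubble lemma. -/

set_option autoImplicit false

open Polynomial

namespace Pool.Agent.PGF.H15

section

variable {k K κ σ : Type*} [Field k] [Field K] [Field κ] [Algebra k K] [Algebra k κ] [Fintype σ]
variable {O : ValuationSubring K} {res : O →+* κ} {w : σ → ℕ} {S : σ → Multiset K}

theorem loop [Infinite K] {J : Set (MvPolynomial σ k)} {z : σ → k} {e : ℕ}
    (hO : ∀ c : k, algebraMap k K c ∈ O) (hsurj : Function.Surjective res)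
    (hres : ∀ x : O, res x = 0 ↔ O.valuation (x : K) < 1)
    (hk : ∀ c : k, res ⟨algebraMap k K c, hO c⟩ = algebraMap k κ c)
    (hgcd : Finset.univ.gcd w = 1)
    (hJ : ∀ F ∈ J, ∃ n, F.IsWeightedHomogeneous w n) (hM : MArc J w e z S) (hMc : ¬ MConst w S) :
    ∀ (μ : ℕ) (c τ u : K) (D R : σ → Multiset K), St O res w S c τ u μ D R → μ ≤ e →
      MConst w (qq O res c τ D) → (∀ ρ0, ∃ l, ∃ ρ ∈ qq O res c τ D l, ρ ≠ ρ0) →
      ∃ e' < e, (∃ S' : σ → Multiset K, MArc J w e' z S' ∧ ¬ MConst w S') ∨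
        (∃ S' : σ → Multiset κ, MArc J w e' z S' ∧ ¬ MConst w S') := by
  classical
  intro μ
  induction μ using Nat.strong_induction_on with
  | _ μ ih =>
    intro c τ u D R h hμe hq htwo
    obtain ⟨l1, ρ, hρ, _⟩ := htwo 0
    obtain ⟨l2, ρ2, hρ2, hne⟩ := htwo ρ
    obtain ⟨μ', hμ0, hμμ, hcount⟩ := mult hgcd hq (fun l => by rw [qq, Multiset.card_map, h.card])
      ⟨l1, hρ⟩ ⟨l2, ρ2, hρ2, hne⟩
    set D' : σ → Multiset K := fun l => (D l).filter (fun r => ρ = red O res ((r - c) / τ)) with hD'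
    set D'' : σ → Multiset K :=
      fun l => (D l).filter (fun r => ¬ (ρ = red O res ((r - c) / τ))) with hD''
    have hDD : ∀ l, D' l + D'' l = D l := fun l => Multiset.filter_add_not _ _
    have h1 : ∀ l, ∀ r ∈ D' l, red O res ((r - c) / τ) = ρ := fun l r hr =>
      (Multiset.mem_filter.mp hr).2.symm
    have h2 : ∀ l, ∀ r ∈ D'' l, red O res ((r - c) / τ) ≠ ρ := fun l r hr h3 =>
      (Multiset.mem_filter.mp hr).2 h3.symm
    have hcard : ∀ l, Multiset.card (D' l) = μ' * w l := by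
      intro l
      rw [← hcount, qq, Multiset.count_map]
    obtain ⟨c', hc', hc'ρ⟩ := Multiset.mem_map.mp hρ
    have hc'D : c' ∈ D' l1 := Multiset.mem_filter.mpr ⟨hc', hc'ρ.symm⟩
    by_cases hA : ∀ l, ∀ r ∈ D' l, r = c'
    · refine ⟨e - μ', by omega, Or.inl ⟨fun l => D'' l + R l, ?_⟩⟩
      refine caseA hJ hM hMc (μ' := μ') (c' := c') (by omega) ?_
      intro l
      rw [← h.sum l, ← hDD l, ← Multiset.eq_replicate.mpr ⟨hcard l, hA l⟩, add_assoc]
    · push Not at hA
      obtain ⟨l0, r0, hr0, hr0c⟩ := hA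
      obtain ⟨r', hr', hmax⟩ := Finset.exists_max_image
        (Finset.univ.biUnion (fun l => (D' l).toFinset)) (fun r => O.valuation (r - c'))
        ⟨r0, Finset.mem_biUnion.mpr ⟨l0, Finset.mem_univ _, Multiset.mem_toFinset.mpr hr0⟩⟩
      obtain ⟨l3, -, hl3⟩ := Finset.mem_biUnion.mp hr'
      rw [Multiset.mem_toFinset] at hl3
      have hmax' : ∀ l, ∀ r ∈ D' l, O.valuation (r - c') ≤ O.valuation (r' - c') := by
        intro l r hr
        exact hmax r (Finset.mem_biUnion.mpr ⟨l, Finset.mem_univ _, Multiset.mem_toFinset.mpr hr⟩)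
      have hne' : r' ≠ c' := by
        rintro rfl
        have h3 := hmax' l0 r0 hr0
        rw [sub_self, map_zero] at h3
        have h4 : O.valuation (r0 - r') ≠ 0 :=
          (Valuation.ne_zero_iff _).mpr (sub_ne_zero.mpr hr0c)
        exact h4 (le_antisymm h3 zero_le')
      obtain ⟨u', hst, htwo'⟩ := caseB h hsurj hres hgcd hq hDD h1 h2 hμμ.le hcard hc'D hl3 hne' hmax'
      by_cases hq' : MConst w (qq O res c' (r' - c') D')
      · exact ih μ' hμμ c' (r' - c') u' D' _ hst (by omega) hq' htwo'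
      · exact ⟨μ', by omega, Or.inr ⟨_, hst.marc hO hsurj hres hk hJ hM, hq'⟩⟩

end

universe u v v₁ v₂

/-- BUBC: the bubble lemma, in terms of roots. -/
theorem bubc : BUBCStmt.{u, v, v₁, v₂} := by
  intro k K κ σ _ _ _ _ _ _ _ O res hO w J z e S hsurj hres hk hgcd hJ hM hMc hSO hq htwo
  have hinf : Infinite k := inferInstance
  have hK : Infinite K := Infinite.of_injective (algebraMap k K) (algebraMap k K).injective
  have hqq : qq O res 0 1 S = fun l => (S l).map (red O res) := by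
    funext l
    rw [qq]
    apply Multiset.map_congr rfl
    intro r _
    rw [sub_zero, div_one]
  refine loop hO hsurj hres hk hgcd hJ hM hMc e 0 1 1 S (fun _ => 0) ?_ le_rfl ?_ ?_
  · refine ⟨fun l => add_zero _, one_ne_zero, one_ne_zero, hM.1, ?_, ?_, ?_⟩
    · intro l r hr
      rw [sub_zero, map_one]
      exact (O.valuation_le_one_iff _).mpr (hSO l r hr)
    · intro l r hr
      exact absurd hr (Multiset.notMem_zero r)
    · intro l
      rw [Multiset.map_zero, Multiset.prod_zero, one_pow, div_one]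
      exact ⟨O.one_mem, red_one⟩
  · rw [hqq]
    exact hq
  · intro ρ0
    obtain ⟨l, r, hr, hne⟩ := htwo ρ0
    refine ⟨l, red O res r, ?_, hne⟩
    rw [hqq]
    exact Multiset.mem_map_of_mem _ hr

end Pool.Agent.PGF.H15
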