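import Pool.Agent.Helper15_PGF.Val

/-! Squad PGF, module BUBC, second part: the states and their arcs over the residue field. -/

set_option autoImplicit false

open Polynomial

namespace Pool.Agent.PGF.H15

section state

variable {k K κ σ : Type*} [Field k] [Field K] [Field κ] [Algebra k K] [Algebra k κ] [Fintype σ]

/-- a disc with centre `c` and radius `v τ`, the roots `D l` in it and the roots `R l` outside -/
structure St (O : ValuationSubring K) (res : O →+* κ) (w : σ → ℕ) (S : σ → Multiset K) (c τ u : K)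
    (μ : ℕ) (D R : σ → Multiset K) : Prop where
  sum : ∀ l, D l + R l = S l
  t0 : τ ≠ 0
  u0 : u ≠ 0
  card : ∀ l, Multiset.card (D l) = μ * w l
  near : ∀ l, ∀ r ∈ D l, O.valuation (r - c) ≤ O.valuation τ
  far : ∀ l, ∀ r ∈ R l, O.valuation τ < O.valuation (r - c)
  prd : ∀ l, U1 O res (((R l).map (fun r => c - r)).prod / u ^ w l)

/-- the reductions of the roots in the disc -/
noncomputable def qq (O : ValuationSubring K) (res : O →+* κ) (c τ : K) (D : σ → Multiset K)
    (l : σ) : Multiset κ :=
  (D l).map (fun r => red O res ((r - c) / τ))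

variable {O : ValuationSubring K} {res : O →+* κ} {w : σ → ℕ} {S : σ → Multiset K}
  {c τ u : K} {μ : ℕ} {D R : σ → Multiset K}

theorem near_mem (h : St O res w S c τ u μ D R) {l : σ} {r : K} (hr : r ∈ D l) :
    (r - c) / τ ∈ O := by
  have h1 : (0 : O.ValueGroup) < O.valuation τ :=
    lt_of_le_of_ne zero_le' (Ne.symm ((Valuation.ne_zero_iff _).mpr h.t0))
  rw [← O.valuation_le_one_iff, map_div₀]
  exact (div_le_one₀ h1).mpr (h.near l r hr)

/-- the rescaled arc reduces to an arc over the residue field -/
theorem St.marc (h : St O res w S c τ u μ D R) {J : Set (MvPolynomial σ k)} {z : σ → k} {e : ℕ}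
    (hO : ∀ c : k, algebraMap k K c ∈ O) (hsurj : Function.Surjective res)
    (hres : ∀ x : O, res x = 0 ↔ O.valuation (x : K) < 1)
    (hk : ∀ c : k, res ⟨algebraMap k K c, hO c⟩ = algebraMap k κ c)
    (hJ : ∀ F ∈ J, ∃ n, F.IsWeightedHomogeneous w n) (hM : MArc J w e z S) :
    MArc J w μ z (qq O res c τ D) := by
  refine ⟨fun l => by rw [qq, Multiset.card_map, h.card], ?_⟩
  intro F hF ξ
  obtain ⟨n, hn⟩ := hJ F hF
  obtain ⟨x, rfl⟩ := hsurj ξ
  have hτ : (0 : O.ValueGroup) < O.valuation τ :=
    lt_of_le_of_ne zero_le' (Ne.symm ((Valuation.ne_zero_iff _).mpr h.t0))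
  set X : K := c + τ * x with hX
  have hXc : O.valuation (X - c) ≤ O.valuation τ := by
    rw [hX, add_sub_cancel_left, map_mul]
    exact mul_le_of_le_one_right' ((O.valuation_le_one_iff _).mpr x.2)
  set Y : σ → K := fun l => ((D l).map (fun r => (x : K) - (r - c) / τ)).prod *
    (((R l).map (fun r => X - r)).prod / u ^ w l) with hY
  have hprod : ∀ l, ((S l).map (fun r => X - r)).prod = (τ ^ μ * u) ^ w l * Y l := by
    intro l
    rw [← h.sum l, Multiset.map_add, Multiset.prod_add]
    have h1 : ((D l).map (fun r => X - r)).prod =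
        τ ^ (μ * w l) * ((D l).map (fun r => (x : K) - (r - c) / τ)).prod := by
      rw [← h.card l, ← Multiset.prod_replicate, ← Multiset.map_const', ← Multiset.prod_map_mul]
      congr 1
      apply Multiset.map_congr rfl
      intro r _
      have := h.t0
      rw [hX]
      field_simp
      ring
    rw [h1, hY, mul_pow, pow_mul]
    have := pow_ne_zero (w l) h.u0
    field_simp
  have hfac : ∀ l, U1 O res (((R l).map (fun r => X - r)).prod / u ^ w l) := fun l =>
    shift hres (fun r hr => hXc.trans_lt (h.far l r hr)) (h.prd l)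
  have hDm : ∀ l, ∀ r ∈ D l, (x : K) - (r - c) / τ ∈ O := fun l r hr =>
    O.sub_mem x.2 (near_mem h hr)
  have hYO : ∀ l, Y l ∈ O := fun l =>
    O.mul_mem _ _ (red_prod (res := res) (D l) _ (hDm l)).1 (hfac l).1
  have hYr : ∀ l, red O res (Y l) = ((qq O res c τ D l).map (fun ρ => res x - ρ)).prod := by
    intro l
    have h1 := red_prod (res := res) (D l) _ (hDm l)
    rw [hY, red_mul h1.1 (hfac l).1, (hfac l).2, mul_one, h1.2, qq, Multiset.map_map]
    congr 1
    apply Multiset.map_congr rfl
    intro r hr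
    rw [red_sub x.2 (near_mem h hr), red_of_mem x.2]
    rfl
  have h0 := hM.2 F hF X
  rw [MvPolynomial.aeval_def] at h0
  have h1 : (fun l => algebraMap k K (z l) * ((S l).map (fun r => X - r)).prod) =
      fun l => (τ ^ μ * u) ^ w l * (algebraMap k K (z l) * Y l) := by
    funext l
    rw [hprod]
    ring
  rw [h1, wh_eval₂ hn] at h0
  have h2 := (mul_eq_zero.mp h0).resolve_left (pow_ne_zero n (mul_ne_zero (pow_ne_zero μ h.t0) h.u0))
  let i : k →+* O := (algebraMap k K).codRestrict O.toSubring hO
  let y : σ → O := fun l => ⟨algebraMap k K (z l) * Y l, O.mul_mem _ _ (hO _) (hYO l)⟩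
  have h3 : F.eval₂ i y = 0 := by
    apply Subtype.val_injective
    have h4 := MvPolynomial.eval₂_comp_left O.subtype i y F
    change O.subtype (F.eval₂ i y) = 0
    rw [h4]
    exact h2
  have h5 := congrArg res h3
  rw [map_zero, MvPolynomial.eval₂_comp_left] at h5
  rw [MvPolynomial.aeval_def]
  have h6 : res.comp i = algebraMap k κ := by
    ext c
    exact hk c
  have h7 : (res ∘ y) = fun l => algebraMap k κ (z l) *
      ((qq O res c τ D l).map (fun ρ => res x - ρ)).prod := by
    funext l
    change res (y l) = _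
    have h8 : y l = ⟨algebraMap k K (z l), hO _⟩ * ⟨Y l, hYO l⟩ := rfl
    rw [h8, map_mul, hk, ← hYr, red_of_mem (hYO l)]
  rw [h6, h7] at h5
  exact h5

end state

end Pool.Agent.PGF.H15
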