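import Pool.Agent.Helper15_PGF.State

/-! Squad PGF, module BUBC, third part: the step to a smaller disc. -/

set_option autoImplicit false

open Polynomial

namespace Pool.Agent.PGF.H15

/-- Bezout -/
theorem bezout {σ : Type*} [Fintype σ] (w : σ → ℕ) (h : Finset.univ.gcd w = 1) :
    ∃ m : σ → ℤ, ∑ l, m l * (w l : ℤ) = 1 := by
  classical
  have h1 : ∀ s : Finset σ, ∃ m : σ → ℤ, ∑ l ∈ s, m l * (w l : ℤ) = ((s.gcd w : ℕ) : ℤ) := by
    intro s
    induction s using Finset.induction with
    | empty => exact ⟨fun _ => 0, by simp⟩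
    | insert a s ha ih =>
      obtain ⟨m, hm⟩ := ih
      refine ⟨fun l => if l = a then Nat.gcdA (w a) (s.gcd w) else Nat.gcdB (w a) (s.gcd w) * m l, ?_⟩
      rw [Finset.sum_insert ha, Finset.gcd_insert]
      beta_reduce
      rw [if_pos rfl]
      have h2 : ∑ l ∈ s, (if l = a then Nat.gcdA (w a) (s.gcd w) else
          Nat.gcdB (w a) (s.gcd w) * m l) * (w l : ℤ) =
          Nat.gcdB (w a) (s.gcd w) * ((s.gcd w : ℕ) : ℤ) := by
        rw [← hm, Finset.mul_sum]
        refine Finset.sum_congr rfl fun l hl => ?_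
        rw [if_neg (by rintro rfl; exact ha hl), mul_assoc]
      rw [h2]
      have h3 := Nat.gcd_eq_gcd_ab (w a) (s.gcd w)
      change _ = ((Nat.gcd (w a) (s.gcd w) : ℕ) : ℤ)
      rw [h3]
      ring
  obtain ⟨m, hm⟩ := h1 Finset.univ
  refine ⟨m, ?_⟩
  rw [hm, h, Nat.cast_one]

theorem prod_zpow {σ κ : Type*} [Field κ] (s : Finset σ) {x : κ} (hx : x ≠ 0) (f : σ → ℤ) :
    ∏ l ∈ s, x ^ f l = x ^ ∑ l ∈ s, f l := by
  classical
  induction s using Finset.induction with
  | empty => simp
  | insert a s ha ih => rw [Finset.prod_insert ha, Finset.sum_insert ha, zpow_add₀ hx, ih]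

section state

variable {k K κ σ : Type*} [Field k] [Field K] [Field κ] [Algebra k K] [Algebra k κ] [Fintype σ]
variable {O : ValuationSubring K} {res : O →+* κ} {w : σ → ℕ} {S : σ → Multiset K}
  {c τ u : K} {μ : ℕ} {D R : σ → Multiset K}

/-- two roots in the disc with the same reduction -/
theorem same_iff (h : St O res w S c τ u μ D R)
    (hres : ∀ x : O, res x = 0 ↔ O.valuation (x : K) < 1) {l l' : σ} {r s : K} (hr : r ∈ D l)
    (hs : s ∈ D l') : red O res ((r - c) / τ) = red O res ((s - c) / τ) ↔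
      O.valuation (r - s) < O.valuation τ := by
  have hτ : (0 : O.ValueGroup) < O.valuation τ :=
    lt_of_le_of_ne zero_le' (Ne.symm ((Valuation.ne_zero_iff _).mpr h.t0))
  rw [red_eq_iff hres (near_mem h hr) (near_mem h hs)]
  have h1 : (r - c) / τ - (s - c) / τ = (r - s) / τ := by
    rw [← sub_div]
    congr 1
    ring
  rw [h1, map_div₀, div_lt_one₀ hτ]

/-- multiplicity of a reduction -/
theorem mult {w : σ → ℕ} {q : σ → Multiset κ} [DecidableEq κ] (hgcd : Finset.univ.gcd w = 1)
    (hq : MConst w q) {μ : ℕ} (hcard : ∀ l, Multiset.card (q l) = μ * w l) {ρ : κ}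
    (h1 : ∃ l, ρ ∈ q l) (h2 : ∃ l, ∃ r ∈ q l, r ≠ ρ) :
    ∃ μ' : ℕ, 0 < μ' ∧ μ' < μ ∧ ∀ l, (q l).count ρ = μ' * w l := by
  obtain ⟨m, hm⟩ := bezout w hgcd
  have hc : ∀ l l', (w l' : ℤ) * ((q l).count ρ : ℤ) = w l * ((q l').count ρ : ℤ) := by
    intro l l'
    have h3 := congrArg (fun s => ((Multiset.count ρ s : ℕ) : ℤ)) (hq l l')
    simp only [Multiset.count_nsmul, Nat.cast_mul] at h3
    exact h3
  set M : ℤ := ∑ l', m l' * ((q l').count ρ : ℤ) with hM
  have hcM : ∀ l, ((q l).count ρ : ℤ) = M * w l := by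
    intro l
    calc ((q l).count ρ : ℤ) = (∑ l', m l' * (w l' : ℤ)) * ((q l).count ρ : ℤ) := by
          rw [hm, one_mul]
      _ = ∑ l', m l' * ((q l').count ρ : ℤ) * w l := by
          rw [Finset.sum_mul]
          refine Finset.sum_congr rfl fun l' _ => ?_
          rw [mul_assoc, hc l l']
          ring
      _ = M * w l := by rw [hM, Finset.sum_mul]
  obtain ⟨l1, hl1⟩ := h1
  have hpos : 0 < M := by
    have h3 : (0 : ℤ) < ((q l1).count ρ : ℤ) := by
      exact_mod_cast Multiset.count_pos.mpr hl1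
    rw [hcM] at h3
    by_contra hcon
    push Not at hcon
    have h4 : M * (w l1 : ℤ) ≤ 0 := mul_nonpos_of_nonpos_of_nonneg hcon (Int.natCast_nonneg _)
    omega
  have hall : ∀ l, (q l).count ρ = M.toNat * w l := by
    intro l
    have h3 := hcM l
    have h4 : ((M.toNat : ℕ) : ℤ) = M := Int.toNat_of_nonneg hpos.le
    rw [← h4] at h3
    exact_mod_cast h3
  refine ⟨M.toNat, by omega, ?_, hall⟩
  obtain ⟨l2, r, hr, hne⟩ := h2
  have h3 : (q l2).count ρ < Multiset.card (q l2) := by
    refine lt_of_le_of_ne (Multiset.count_le_card _ _) ?_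
    intro h4
    exact hne (Multiset.count_eq_card.mp h4 r hr).symm
  rw [hall, hcard] at h3
  exact Nat.lt_of_mul_lt_mul_right h3

/-- case A: the roots in the smaller disc coincide -/
theorem caseA [Infinite K] {J : Set (MvPolynomial σ k)} {z : σ → k} {e : ℕ}
    (hJ : ∀ F ∈ J, ∃ n, F.IsWeightedHomogeneous w n) (hM : MArc J w e z S) (hMc : ¬ MConst w S)
    {μ' : ℕ} {c' : K} {T : σ → Multiset K} (hμ' : μ' ≤ e)
    (hS : ∀ l, S l = Multiset.replicate (μ' * w l) c' + T l) :
    MArc J w (e - μ') z T ∧ ¬ MConst w T := by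
  refine ⟨⟨?_, ?_⟩, ?_⟩
  · intro l
    have h1 := hM.1 l
    rw [hS, Multiset.card_add, Multiset.card_replicate] at h1
    rw [Nat.sub_mul]
    omega
  · intro F hF
    obtain ⟨n, hn⟩ := hJ F hF
    set P : K[X] := F.eval₂ ((C : K →+* K[X]).comp (algebraMap k K))
      (fun l => C (algebraMap k K (z l)) * ((T l).map (fun r => X - C r)).prod) with hP
    have hev : ∀ x : K, P.eval x = MvPolynomial.aeval
        (fun l => algebraMap k K (z l) * ((T l).map (fun r => x - r)).prod) F := by
      intro x
      rw [MvPolynomial.aeval_def, hP]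
      have h1 := MvPolynomial.eval₂_comp_left (evalRingHom x)
        ((C : K →+* K[X]).comp (algebraMap k K))
        (fun l => C (algebraMap k K (z l)) * ((T l).map (fun r => X - C r)).prod) F
      rw [coe_evalRingHom] at h1
      rw [h1]
      have h2 : (evalRingHom x).comp ((C : K →+* K[X]).comp (algebraMap k K)) = algebraMap k K := by
        ext a
        simp
      have h3 : ((fun p : K[X] => p.eval x) ∘ fun l => C (algebraMap k K (z l)) *
          ((T l).map (fun r => X - C r)).prod) =
          fun l => algebraMap k K (z l) * ((T l).map (fun r => x - r)).prod := by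
        funext l
        simp only [Function.comp_apply, eval_mul, eval_C]
        congr 1
        rw [← coe_evalRingHom, map_multiset_prod, Multiset.map_map]
        congr 1
        apply Multiset.map_congr rfl
        intro r _
        simp
      rw [h2]
      exact congrArg (fun g => F.eval₂ (algebraMap k K) g) h3
    have hP0 : P = 0 := by
      apply Polynomial.eq_zero_of_infinite_isRoot
      apply Set.Infinite.mono (s := ({c'} : Set K)ᶜ) _ (Set.finite_singleton c').infinite_compl
      intro x hx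
      have hx' : x - c' ≠ 0 := sub_ne_zero.mpr hx
      change P.eval x = 0
      rw [hev]
      have h1 := hM.2 F hF x
      rw [MvPolynomial.aeval_def] at h1 ⊢
      have h2 : (fun l => algebraMap k K (z l) * ((S l).map (fun r => x - r)).prod) =
          fun l => ((x - c') ^ μ') ^ w l *
            (algebraMap k K (z l) * ((T l).map (fun r => x - r)).prod) := by
        funext l
        rw [hS, Multiset.map_add, Multiset.prod_add, Multiset.map_replicate,
          Multiset.prod_replicate, pow_mul]
        ring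
      rw [h2, wh_eval₂ hn] at h1
      exact (mul_eq_zero.mp h1).resolve_left (pow_ne_zero _ (pow_ne_zero _ hx'))
    intro x
    rw [← hev, hP0, eval_zero]
  · intro hT
    apply hMc
    intro l l'
    rw [hS l, hS l', nsmul_add, nsmul_add, hT l l', Multiset.nsmul_replicate,
      Multiset.nsmul_replicate]
    congr 2
    ring

/-- case B: a new state -/
theorem caseB (h : St O res w S c τ u μ D R) (hsurj : Function.Surjective res)
    (hres : ∀ x : O, res x = 0 ↔ O.valuation (x : K) < 1) (hgcd : Finset.univ.gcd w = 1)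
    (hq : MConst w (qq O res c τ D)) {ρ : κ} {μ' : ℕ} {D' D'' : σ → Multiset K}
    (hD : ∀ l, D' l + D'' l = D l) (hD' : ∀ l, ∀ r ∈ D' l, red O res ((r - c) / τ) = ρ)
    (hD'' : ∀ l, ∀ r ∈ D'' l, red O res ((r - c) / τ) ≠ ρ) (hμ : μ' ≤ μ)
    (hcard : ∀ l, Multiset.card (D' l) = μ' * w l) {l1 l2 : σ} {c' r' : K} (hc' : c' ∈ D' l1)
    (hr' : r' ∈ D' l2) (hne : r' ≠ c')
    (hmax : ∀ l, ∀ r ∈ D' l, O.valuation (r - c') ≤ O.valuation (r' - c')) :
    ∃ u' : K, St O res w S c' (r' - c') u' μ' D' (fun l => R l + D'' l) ∧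
      ∀ ρ0, ∃ l, ∃ ρ ∈ qq O res c' (r' - c') D' l, ρ ≠ ρ0 := by
  classical
  have hsub : ∀ l, ∀ r ∈ D' l, r ∈ D l := fun l r hr => by
    rw [← hD l]; exact Multiset.mem_add.mpr (Or.inl hr)
  have hsub' : ∀ l, ∀ r ∈ D'' l, r ∈ D l := fun l r hr => by
    rw [← hD l]; exact Multiset.mem_add.mpr (Or.inr hr)
  have hτ' : r' - c' ≠ 0 := sub_ne_zero.mpr hne
  have hlt : O.valuation (r' - c') < O.valuation τ := by
    rw [← same_iff h hres (hsub _ _ hr') (hsub _ _ hc'), hD' _ _ hr', hD' _ _ hc']
  have hcc : O.valuation (c' - c) ≤ O.valuation τ := h.near l1 c' (hsub _ _ hc')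
  -- the reductions of the other roots
  set V : σ → κ := fun l => ((D'' l).map (fun r => ρ - red O res ((r - c) / τ))).prod with hV
  have hV0 : ∀ l, V l ≠ 0 := by
    intro l h1
    rw [hV, Multiset.prod_eq_zero_iff, Multiset.mem_map] at h1
    obtain ⟨r, hr, hr0⟩ := h1
    exact hD'' l r hr (sub_eq_zero.mp hr0).symm
  have hVq : ∀ l, V l = (((qq O res c τ D l).filter (fun x => x ≠ ρ)).map (fun x => ρ - x)).prod := by
    intro l
    have h1 : (qq O res c τ D l).filter (fun x => x ≠ ρ) =
        (D'' l).map (fun r => red O res ((r - c) / τ)) := by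
      rw [qq, ← hD l, Multiset.map_add, Multiset.filter_add, Multiset.filter_eq_nil.mpr,
        Multiset.filter_eq_self.mpr, zero_add]
      · intro x hx
        obtain ⟨r, hr, rfl⟩ := Multiset.mem_map.mp hx
        exact hD'' l r hr
      · intro x hx
        obtain ⟨r, hr, rfl⟩ := Multiset.mem_map.mp hx
        rw [not_not]
        exact hD' l r hr
    rw [h1, Multiset.map_map]
    rfl
  have hVV : ∀ l l', V l ^ w l' = V l' ^ w l := by
    intro l l'
    have h1 := congrArg (fun s => ((s.filter (fun x => x ≠ ρ)).map (fun x => ρ - x)).prod) (hq l l')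
    simp only [Multiset.filter_nsmul, Multiset.map_nsmul, Multiset.prod_nsmul] at h1
    rw [hVq, hVq]
    exact h1
  obtain ⟨m, hm⟩ := bezout w hgcd
  set U : κ := ∏ l, V l ^ m l with hU
  have hUV : ∀ l, U ^ w l = V l := by
    intro l
    have h1 : U ^ w l = ∏ l', V l ^ (m l' * (w l' : ℤ)) := by
      rw [hU, ← Finset.prod_pow]
      refine Finset.prod_congr rfl fun l' _ => ?_
      rw [mul_comm (m l'), zpow_mul, zpow_natCast, hVV l l', ← zpow_natCast, ← zpow_mul,
        ← zpow_natCast, ← zpow_mul, mul_comm]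
    rw [h1, prod_zpow _ (hV0 l), hm, zpow_one]
  have hU0 : U ≠ 0 := Finset.prod_ne_zero_iff.mpr fun l _ => zpow_ne_zero _ (hV0 l)
  obtain ⟨y, hy⟩ := hsurj U
  have hyr : red O res (y : K) = U := by
    rw [red_of_mem y.2]
    exact hy
  have hy0 : (y : K) ≠ 0 := by
    intro h0
    apply hU0
    rw [← hyr, h0, (red_zero_iff hres O.zero_mem).mpr]
    rw [map_zero]
    exact zero_lt_one
  refine ⟨u * τ ^ (μ - μ') * y, ?_, ?_⟩
  · refine ⟨?_, hτ', mul_ne_zero (mul_ne_zero h.u0 (pow_ne_zero _ h.t0)) hy0, hcard, hmax, ?_, ?_⟩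
    · intro l
      rw [← h.sum l, ← hD l]
      abel
    · intro l r hr
      rcases Multiset.mem_add.mp hr with hr | hr
      · by_contra hcon
        push Not at hcon
        have h1 : O.valuation (r - c) ≤ O.valuation τ := by
          have h2 : r - c = (r - c') + (c' - c) := by ring
          rw [h2]
          exact Valuation.map_add_le _ (hcon.trans hlt.le) hcc
        exact absurd (h.far l r hr) (not_lt.mpr h1)
      · refine hlt.trans_le ?_
        rw [← not_lt, ← same_iff h hres (hsub' _ _ hr) (hsub _ _ hc'), hD' _ _ hc']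
        exact hD'' l r hr
    · intro l
      have hcardD : Multiset.card (D'' l) = (μ - μ') * w l := by
        have h1 := congrArg Multiset.card (hD l)
        rw [Multiset.card_add, hcard, h.card] at h1
        rw [Nat.sub_mul]
        omega
      have h1 : ((D'' l).map (fun r => c' - r)).prod =
          (τ ^ (μ - μ')) ^ w l * ((D'' l).map (fun r => (c' - r) / τ)).prod := by
        rw [← pow_mul, ← hcardD, ← Multiset.prod_replicate, ← Multiset.map_const',
          ← Multiset.prod_map_mul]
        congr 1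
        apply Multiset.map_congr rfl
        intro r _
        rw [mul_div_cancel₀ _ h.t0]
      have h2 : (((R l + D'' l).map (fun r => c' - r)).prod / (u * τ ^ (μ - μ') * y) ^ w l) =
          (((R l).map (fun r => c' - r)).prod / u ^ w l) *
            (((D'' l).map (fun r => (c' - r) / τ)).prod / (y : K) ^ w l) := by
        rw [Multiset.map_add, Multiset.prod_add, h1, mul_pow, mul_pow]
        have e1 := pow_ne_zero (w l) h.u0
        have e2 := pow_ne_zero (w l) (pow_ne_zero (μ - μ') h.t0)
        have e3 := pow_ne_zero (w l) hy0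
        field_simp
      rw [h2]
      refine (shift hres (fun r hr => hcc.trans_lt (h.far l r hr)) (h.prd l)).mul ?_
      have h3 : ∀ r ∈ D'' l, (c' - r) / τ ∈ O ∧
          red O res ((c' - r) / τ) = ρ - red O res ((r - c) / τ) := by
        intro r hr
        have h4 : (c' - r) / τ = (c' - c) / τ - (r - c) / τ := by
          rw [← sub_div]
          congr 1
          ring
        have h5 := near_mem h (hsub _ _ hc')
        have h6 := near_mem h (hsub' _ _ hr)
        rw [h4, red_sub h5 h6, hD' _ _ hc']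
        exact ⟨O.sub_mem h5 h6, rfl⟩
      have h7 := red_prod (res := res) (D'' l) (fun r => (c' - r) / τ) (fun r hr => (h3 r hr).1)
      have h8 : red O res ((y : K) ^ w l) = V l := by
        rw [← hUV l, red_of_mem (O.pow_mem y.2 _), ← hy, ← map_pow]
        rfl
      refine U1.div hres h7.1 (O.pow_mem y.2 _) ?_ (by rw [h8]; exact hV0 l)
      rw [h7.2, h8, hV]
      congr 1
      apply Multiset.map_congr rfl
      intro r hr
      exact (h3 r hr).2
  · intro ρ0
    by_cases h0 : ρ0 = 0
    · refine ⟨l2, 1, ?_, by rw [h0]; exact one_ne_zero⟩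
      refine Multiset.mem_map.mpr ⟨r', hr', ?_⟩
      rw [div_self hτ', red_one]
    · refine ⟨l1, 0, ?_, Ne.symm h0⟩
      refine Multiset.mem_map.mpr ⟨c', hc', ?_⟩
      rw [sub_self, zero_div, (red_zero_iff hres O.zero_mem).mpr]
      rw [map_zero]
      exact zero_lt_one

end state

end Pool.Agent.PGF.H15
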