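import Pool.Agent.Helper45_PGF.Stmts

/-! Squad PGF, module BUBC, first part: reductions of products in a valuation ring. -/

set_option autoImplicit false

open Polynomial

namespace Pool.Agent.PGF.H15

section val

variable {K κ : Type*} [Field K] [Field κ] {O : ValuationSubring K} {res : O →+* κ}

theorem red_of_mem {x : K} (h : x ∈ O) : red O res x = res ⟨x, h⟩ := by
  unfold red
  exact dif_pos h

theorem red_mul {x y : K} (hx : x ∈ O) (hy : y ∈ O) :
    red O res (x * y) = red O res x * red O res y := by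
  rw [red_of_mem hx, red_of_mem hy, red_of_mem (O.mul_mem _ _ hx hy), ← map_mul]
  rfl

theorem red_sub {x y : K} (hx : x ∈ O) (hy : y ∈ O) :
    red O res (x - y) = red O res x - red O res y := by
  rw [red_of_mem hx, red_of_mem hy, red_of_mem (O.sub_mem hx hy), ← map_sub]
  rfl

theorem red_one : red O res 1 = 1 := by
  rw [red_of_mem O.one_mem, ← map_one res]
  rfl

theorem red_prod {ι : Type*} (T : Multiset ι) (f : ι → K) (h : ∀ r ∈ T, f r ∈ O) :
    (T.map f).prod ∈ O ∧ red O res (T.map f).prod = (T.map (fun r => red O res (f r))).prod := by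
  induction T using Multiset.induction with
  | empty => simp only [Multiset.map_zero, Multiset.prod_zero]; exact ⟨O.one_mem, red_one⟩
  | cons a T ih =>
    have h1 := ih (fun r hr => h r (Multiset.mem_cons_of_mem hr))
    have h2 := h a (Multiset.mem_cons_self a T)
    rw [Multiset.map_cons, Multiset.prod_cons, Multiset.map_cons, Multiset.prod_cons]
    exact ⟨O.mul_mem _ _ h2 h1.1, by rw [red_mul h2 h1.1, h1.2]⟩

/-- the residue of `x` is one -/
def U1 (O : ValuationSubring K) (res : O →+* κ) (x : K) : Prop := x ∈ O ∧ red O res x = 1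

theorem U1.mul {x y : K} (hx : U1 O res x) (hy : U1 O res y) : U1 O res (x * y) :=
  ⟨O.mul_mem _ _ hx.1 hy.1, by rw [red_mul hx.1 hy.1, hx.2, hy.2, one_mul]⟩

theorem U1.prod {ι : Type*} {T : Multiset ι} {f : ι → K} (h : ∀ r ∈ T, U1 O res (f r)) :
    U1 O res (T.map f).prod := by
  have h1 := red_prod (res := res) T f (fun r hr => (h r hr).1)
  refine ⟨h1.1, ?_⟩
  rw [h1.2, Multiset.map_congr rfl (fun r hr => (h r hr).2), Multiset.map_const',
    Multiset.prod_replicate, one_pow]

variable (hres : ∀ x : O, res x = 0 ↔ O.valuation (x : K) < 1)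
include hres

theorem red_zero_iff {x : K} (hx : x ∈ O) : red O res x = 0 ↔ O.valuation x < 1 := by
  rw [red_of_mem hx]
  exact hres ⟨x, hx⟩

theorem red_eq_iff {x y : K} (hx : x ∈ O) (hy : y ∈ O) :
    red O res x = red O res y ↔ O.valuation (x - y) < 1 := by
  rw [← red_zero_iff hres (O.sub_mem hx hy), red_sub hx hy, sub_eq_zero]

theorem U1.of_lt {x : K} (h : O.valuation (x - 1) < 1) : U1 O res x := by
  have h1 : x - 1 ∈ O := (O.valuation_le_one_iff _).mp h.le
  have h2 : x ∈ O := by
    have h3 := O.add_mem _ _ h1 O.one_mem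
    rwa [sub_add_cancel] at h3
  refine ⟨h2, ?_⟩
  have h3 := (red_eq_iff hres h2 O.one_mem).mpr h
  rw [h3, red_one]

theorem val_one {b : K} (hb : b ∈ O) (h0 : red O res b ≠ 0) : O.valuation b = 1 := by
  refine le_antisymm ((O.valuation_le_one_iff _).mpr hb) ?_
  by_contra hcon
  push Not at hcon
  exact h0 ((red_zero_iff hres hb).mpr hcon)

theorem U1.div {a b : K} (ha : a ∈ O) (hb : b ∈ O) (h : red O res a = red O res b)
    (h0 : red O res b ≠ 0) : U1 O res (a / b) := by
  have h1 := val_one hres hb h0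
  have hb0 : b ≠ 0 := by
    rintro rfl
    rw [map_zero] at h1
    exact zero_ne_one h1
  have h2 : b⁻¹ ∈ O := by
    rw [← O.valuation_le_one_iff, map_inv₀, h1, inv_one]
  have h3 : red O res b * red O res b⁻¹ = 1 := by
    rw [← red_mul hb h2, mul_inv_cancel₀ hb0, red_one]
  rw [div_eq_mul_inv]
  exact ⟨O.mul_mem _ _ ha h2, by rw [red_mul ha h2, h, h3]⟩

/-- moving the centre -/
theorem shift {c c' y : K} {R : Multiset K}
    (h : ∀ r ∈ R, O.valuation (c' - c) < O.valuation (r - c))
    (hy : U1 O res ((R.map (fun r => c - r)).prod / y)) :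
    U1 O res ((R.map (fun r => c' - r)).prod / y) := by
  have h0 : ∀ r ∈ R, c - r ≠ 0 := by
    intro r hr h1
    have h2 := h r hr
    rw [sub_eq_zero.mp h1, sub_self, map_zero] at h2
    exact not_lt_zero' h2
  have h1 : (R.map (fun r => c' - r)).prod =
      (R.map (fun r => c - r)).prod * (R.map (fun r => (c' - r) / (c - r))).prod := by
    rw [← Multiset.prod_map_mul]
    congr 1
    apply Multiset.map_congr rfl
    intro r hr
    rw [mul_div_cancel₀ _ (h0 r hr)]
  rw [h1, mul_div_right_comm]
  refine hy.mul (U1.prod ?_)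
  intro r hr
  apply U1.of_lt hres
  have h2 : (c' - r) / (c - r) - 1 = (c' - c) / (c - r) := by
    rw [div_sub_one (h0 r hr)]
    congr 1
    ring
  rw [h2, map_div₀]
  have h3 : O.valuation (c - r) = O.valuation (r - c) := Valuation.map_sub_swap _ _ _
  rw [h3]
  have h4 := h r hr
  have h5 : (0 : O.ValueGroup) < O.valuation (r - c) := lt_of_le_of_lt zero_le' h4
  exact (div_lt_one₀ h5).mpr h4

end val

section wh

variable {k σ A : Type*} [CommSemiring k] [CommSemiring A] [Fintype σ]

theorem wh_eval₂ {w : σ → ℕ} {n : ℕ} {F : MvPolynomial σ k} (h : F.IsWeightedHomogeneous w n)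
    (f : k →+* A) (t : A) (a : σ → A) :
    F.eval₂ f (fun l => t ^ w l * a l) = t ^ n * F.eval₂ f a := by
  rw [MvPolynomial.eval₂_eq', MvPolynomial.eval₂_eq', Finset.mul_sum]
  refine Finset.sum_congr rfl fun d hd => ?_
  have h1 := h (MvPolynomial.mem_support_iff.mp hd)
  rw [Finsupp.weight_apply, Finsupp.sum_fintype _ _ (fun i => by rw [zero_smul])] at h1
  have h2 : ∏ i, (t ^ w i * a i) ^ d i = t ^ n * ∏ i, a i ^ d i := by
    simp only [mul_pow, Finset.prod_mul_distrib, ← pow_mul]
    rw [Finset.prod_pow_eq_pow_sum, ← h1]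
    congr 2
    refine Finset.sum_congr rfl fun i _ => ?_
    rw [smul_eq_mul, mul_comm]
  rw [h2]
  ring

end wh

end Pool.Agent.PGF.H15
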